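import Pool.Agent.Helper76.CV.Goals

/-!
# Project CV (MP_eec6f5_gt), packet CV-KAP: the smooth step `kap`.
-/

set_option autoImplicit false

open scoped ContDiff

namespace Pool.Agent.Helper66.CV.KAP

open Pool.Agent.Helper76.CV

theorem t : Pool.Agent.Helper76.CV.KAP := by
  refine ⟨?_, fun s => ⟨Real.smoothTransition.nonneg _, Real.smoothTransition.le_one _⟩, ?_, ?_⟩
  · unfold kap
    exact Real.smoothTransition.contDiff.comp (by fun_prop)
  · intro s hs
    exact Real.smoothTransition.one_of_one_le (by linarith)
  · intro s hs
    exact Real.smoothTransition.zero_of_nonpos (by linarith)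

end Pool.Agent.Helper66.CV.KAP
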